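import Pool.Agent.Helper98.GX.St4

/-! # Project GX, module LFR: a linear change of coordinates of a Frame is a Frame -/

set_option autoImplicit false

open scoped BigOperators

namespace Pool.Agent.Helper53.GX

open Pool.Agent.Helper98.GX
open Pool.Agent.Helper53.CX (DivVal LinSys IsNefCartier)

section

variable {K : Type} [Field K] [Algebra ℂ K]

private theorem ord_div (v : DivVal K) {g g' : K} (hg : g ≠ 0) (hg' : g' ≠ 0) :
    v.ord (g / g') = v.ord g - v.ord g' := by
  have h := v.ord_mul g' (g / g') hg' (div_ne_zero hg hg')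
  rw [mul_div_cancel₀ g hg'] at h
  omega

private theorem ord_one (v : DivVal K) : v.ord 1 = 0 := by
  have h := v.ord_mul 1 1 one_ne_zero one_ne_zero
  rw [mul_one] at h
  omega

private theorem ord_pow (v : DivVal K) {g : K} (hg : g ≠ 0) (m : ℕ) :
    v.ord (g ^ m) = (m : ℤ) * v.ord g := by
  induction m with
  | zero => simp [ord_one]
  | succ m ih =>
    rw [pow_succ, v.ord_mul _ _ (pow_ne_zero m hg) hg, ih]
    push_cast
    ring

/-- constants have order zero -/
private theorem ord_const (v : DivVal K) {c : ℂ} (hc : c ≠ 0) : v.ord (algebraMap ℂ K c) = 0 := by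
  set N : ℤ := v.ord (algebraMap ℂ K c) with hN
  obtain ⟨d, hd⟩ := IsAlgClosed.exists_pow_nat_eq c (Nat.succ_pos N.natAbs)
  have hd0 : d ≠ 0 := by
    rintro rfl
    rw [zero_pow (Nat.succ_ne_zero _)] at hd
    exact hc hd.symm
  have h1 : N = ((N.natAbs.succ : ℕ) : ℤ) * v.ord (algebraMap ℂ K d) := by
    rw [← ord_pow v (by simpa using hd0), ← map_pow, hd]
  by_contra hne
  have h2 : ((N.natAbs.succ : ℕ) : ℤ) ∣ N := ⟨_, h1⟩
  have h3 := Int.le_of_dvd (abs_pos.2 hne) ((dvd_abs _ _).2 h2)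
  rw [Int.abs_eq_natAbs] at h3
  push_cast at h3
  omega

private theorem le_div (F : LinSys K) (v : DivVal K) {h : K} (hh : h ∈ F.gens) :
    -v.ord h ≤ F.div v :=
  Finset.le_sup' (fun f => -v.ord f) hh

private theorem ord_sum_ge (v : DivVal K) {ι : Type} (s : Finset ι) (f : ι → K) (C : ℤ)
    (hf : ∀ i ∈ s, f i ≠ 0 → C ≤ v.ord (f i)) :
    ∑ i ∈ s, f i = 0 ∨ C ≤ v.ord (∑ i ∈ s, f i) := by
  classical
  induction s using Finset.induction_on with
  | empty => exact Or.inl Finset.sum_empty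
  | insert a s ha ih =>
    rw [Finset.sum_insert ha]
    have ih' := ih fun i hi => hf i (Finset.mem_insert_of_mem hi)
    by_cases h0 : f a = 0
    · rw [h0, zero_add]
      exact ih'
    · have h1 := hf a (Finset.mem_insert_self a s) h0
      rcases ih' with h | h
      · right
        rw [h, add_zero]
        exact h1
      · by_cases h2 : ∑ i ∈ s, f i = 0
        · right
          rw [h2, add_zero]
          exact h1
        · by_cases h3 : f a + ∑ i ∈ s, f i = 0
          · exact Or.inl h3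
          · right
            exact le_trans (le_min h1 h) (v.ord_add _ _ h0 h2 h3)

variable {V : NormalProj K} {r : ℕ}

/-- a section of `H k` with nonnegative divisor has a prime divisor of multidegree `e_k` -/
private theorem exists_prime (hFSP : StFSP) (hCBD : StCBD) (B : ClassBasis V r)
    (k : Fin r) (g : K) (hg0 : g ≠ 0) (hD : ∀ q ∈ V.primes, 0 ≤ q.ord g + (B.H k).div q) :
    ∃ p ∈ V.primes, p.ord g + (B.H k).div p = 1 ∧ (∀ l, B.deg p l = if k = l then 1 else 0) ∧
      ∀ q ∈ V.primes, q ≠ p → q.ord g + (B.H k).div q = 0 := by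
  classical
  have hfin := (hFSP K V g hg0).union ((hCBD K V r B).2.1 k)
  set F : Finset (DivVal K) := hfin.toFinset with hF
  have hmem : ∀ p, p ∈ F ↔ p ∈ V.primes ∧ (p.ord g ≠ 0 ∨ (B.H k).div p ≠ 0) := by
    intro p
    rw [hF, Set.Finite.mem_toFinset]
    constructor
    · rintro (⟨h1, h2⟩ | ⟨h1, h2⟩)
      · exact ⟨h1, Or.inl h2⟩
      · exact ⟨h1, Or.inr h2⟩
    · rintro ⟨h1, h2 | h2⟩
      · exact Or.inl ⟨h1, h2⟩
      · exact Or.inr ⟨h1, h2⟩
  have hsum : ∀ h : DivVal K → ℤ, (∀ p ∈ V.primes, p ∉ F → h p = 0) →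
      ∑ᶠ p ∈ V.primes, h p = ∑ p ∈ F, h p := by
    intro h hh
    apply finsum_mem_eq_sum_of_inter_support_eq
    ext p
    constructor
    · rintro ⟨h1, h2⟩
      refine ⟨?_, h2⟩
      by_contra hc
      exact h2 (hh p h1 hc)
    · rintro ⟨h1, h2⟩
      exact ⟨((hmem p).1 h1).1, h2⟩
  have hout : ∀ p ∈ V.primes, p ∉ F → p.ord g = 0 ∧ (B.H k).div p = 0 := by
    intro p hp hpF
    rw [hmem] at hpF
    push Not at hpF
    exact hpF hp
  -- the degrees
  have d1 : ∀ l, ∑ p ∈ F, (B.deg p l : ℤ) * p.ord g = 0 := by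
    intro l
    rw [← hsum (fun p => (B.deg p l : ℤ) * p.ord g) fun p hp hpF => by
      rw [(hout p hp hpF).1, mul_zero]]
    exact (hCBD K V r B).1 g hg0 l
  have d2 : ∀ l, ∑ p ∈ F, (B.deg p l : ℤ) * (B.H k).div p = if k = l then 1 else 0 := by
    intro l
    rw [← hsum (fun p => (B.deg p l : ℤ) * (B.H k).div p) fun p hp hpF => by
      rw [(hout p hp hpF).2, mul_zero]]
    by_cases h : k = l
    · subst h
      rw [if_pos rfl]
      exact (hCBD K V r B).2.2.1 k
    · rw [if_neg h]
      exact (hCBD K V r B).2.2.2 k l h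
  have d4 : ∀ l, ∑ p ∈ F, (B.deg p l : ℤ) * (p.ord g + (B.H k).div p) =
      if k = l then 1 else 0 := by
    intro l
    rw [Finset.sum_congr rfl fun p _ => mul_add _ _ _, Finset.sum_add_distrib, d1, d2, zero_add]
  have d3 : ∑ p ∈ F, (∑ l, (B.deg p l : ℤ)) * (p.ord g + (B.H k).div p) = 1 := by
    rw [Finset.sum_congr rfl fun p _ => Finset.sum_mul _ _ _, Finset.sum_comm,
      Finset.sum_congr rfl fun l _ => d4 l, Finset.sum_ite_eq Finset.univ k,
      if_pos (Finset.mem_univ k)]
  have hdeg : ∀ p ∈ F, 1 ≤ ∑ l, (B.deg p l : ℤ) := by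
    intro p hp
    have := B.deg_pos p ((hmem p).1 hp).1
    exact_mod_cast this
  have hDF : ∀ p ∈ F, 0 ≤ p.ord g + (B.H k).div p := fun p hp => hD p ((hmem p).1 hp).1
  have hnn : ∀ p ∈ F, 0 ≤ (∑ l, (B.deg p l : ℤ)) * (p.ord g + (B.H k).div p) := fun p hp =>
    mul_nonneg (by have := hdeg p hp; omega) (hDF p hp)
  obtain ⟨p, hpF, hp0⟩ : ∃ p ∈ F, p.ord g + (B.H k).div p ≠ 0 := by
    by_contra hc
    push Not at hc
    rw [Finset.sum_eq_zero fun p hp => by rw [hc p hp, mul_zero]] at d3
    exact zero_ne_one d3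
  have hDp : 1 ≤ p.ord g + (B.H k).div p := by
    have := hDF p hpF
    omega
  have hterm : 1 ≤ (∑ l, (B.deg p l : ℤ)) * (p.ord g + (B.H k).div p) := by
    have h1 := hdeg p hpF
    nlinarith
  have hsplit := Finset.add_sum_erase F
    (fun p => (∑ l, (B.deg p l : ℤ)) * (p.ord g + (B.H k).div p)) hpF
  rw [d3] at hsplit
  have hrest : 0 ≤ ∑ q ∈ F.erase p, (∑ l, (B.deg q l : ℤ)) * (q.ord g + (B.H k).div q) :=
    Finset.sum_nonneg fun q hq => hnn q (Finset.mem_of_mem_erase hq)
  have hterm1 : (∑ l, (B.deg p l : ℤ)) * (p.ord g + (B.H k).div p) = 1 := by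
    omega
  have hrest0 : ∑ q ∈ F.erase p, (∑ l, (B.deg q l : ℤ)) * (q.ord g + (B.H k).div q) = 0 := by
    omega
  have hother : ∀ q ∈ V.primes, q ≠ p → q.ord g + (B.H k).div q = 0 := by
    intro q hq hqp
    by_cases hqF : q ∈ F
    · have h0 := (Finset.sum_eq_zero_iff_of_nonneg fun q hq => hnn q (Finset.mem_of_mem_erase hq)).1
        hrest0 q (Finset.mem_erase.2 ⟨hqp, hqF⟩)
      rcases mul_eq_zero.1 h0 with h | h
      · have := hdeg q hqF
        omega
      · exact h
    · have := hout q hq hqF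
      omega
  have hDp1 : p.ord g + (B.H k).div p = 1 := by
    have h1 := hdeg p hpF
    nlinarith
  refine ⟨p, ((hmem p).1 hpF).1, hDp1, ?_, hother⟩
  intro l
  have h := d4 l
  rw [Finset.sum_eq_single p (fun q hq hqp => by
    rw [hother q ((hmem q).1 hq).1 hqp, mul_zero]) (fun h => absurd hpF h), hDp1, mul_one] at h
  by_cases hkl : k = l
  · rw [if_pos hkl] at h ⊢
    exact_mod_cast h
  · rw [if_neg hkl] at h ⊢
    exact_mod_cast h

/-- a function without zeros and poles on `V` is constant -/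
private theorem const_of_unit (hGAM : StGAM) (B : ClassBasis V r) {n : ℕ} {L : LogCoord K n}
    (Fr : Frame B L) (f : K) (hf : f ≠ 0) (h : ∀ q ∈ V.primes, q.ord f = 0) :
    ∃ c : ℂ, f = algebraMap ℂ K c := by
  have h1 := hGAM K V r B n L Fr 0 f hf (by
    intro q hq
    rw [h q hq]
    simp)
  have h2 : {h : K | ∃ α : Fin (n + r) → ℕ,
      (∀ k, ∑ a, (if Fr.bl a = k then (α a : ℤ) else 0) = (0 : Fin r → ℤ) k) ∧
        h = ∏ a, Fr.g a ^ α a} ⊆ {1} := by
    rintro x ⟨α, hα, rfl⟩
    rw [Set.mem_singleton_iff]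
    apply Finset.prod_eq_one
    intro a _
    have h3 := (Finset.sum_eq_zero_iff_of_nonneg (fun b _ => by
      split_ifs
      · exact Int.natCast_nonneg _
      · exact le_refl _)).1 (hα (Fr.bl a)) a (Finset.mem_univ a)
    rw [if_pos rfl] at h3
    have h4 : α a = 0 := by exact_mod_cast h3
    rw [h4, pow_zero]
  have h5 := Submodule.span_mono h2 h1
  rw [Submodule.mem_span_singleton] at h5
  obtain ⟨c, hc⟩ := h5
  exact ⟨c, by rw [← hc, Algebra.smul_def, mul_one]⟩

end

theorem hLFR (hFSP : StFSP) (hCBD : StCBD) (hLPX : StLPX) (hSEC : StSEC) (hGAM : StGAM)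
    (hLIN : StLIN) : StLFR := by
  classical
  intro K _ _ V r B n L Fr T hT hG
  choose β hβ using Fr.surj
  obtain ⟨L', e, hch⟩ := hLPX K V r B n L Fr β hβ
  obtain ⟨L'', hz, hom⟩ := hLIN K V r B n L Fr β L' e hch T hT hG
  have hblk : ∀ a, T a ∈ Blk Fr.bl (Fr.bl a) := by
    intro a b hb
    by_contra hc
    exact hb (hG a b hc)
  have hdet : T.det ≠ 0 := hT.ne_zero
  have hrow : ∀ a, T a ≠ 0 := by
    intro a ha
    exact hdet (Matrix.det_eq_zero_of_row_eq_zero a fun j => by rw [ha]; rfl)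
  have hne : ∀ a, Fr.sec (T a) ≠ 0 := fun a =>
    (hSEC K V r B n L Fr).1 (Fr.bl a) (T a) (hblk a) (hrow a)
  -- the divisors of the old sections
  have hD0 : ∀ b, ∀ q ∈ V.primes, 0 ≤ q.ord (Fr.g b) + (B.H (Fr.bl b)).div q := by
    intro b q hq
    by_cases h : q = Fr.pr b
    · rw [h, Fr.div_self b]
      exact zero_le_one
    · rw [Fr.div_other b q hq h]
  have hD : ∀ a, ∀ q ∈ V.primes, 0 ≤ q.ord (Fr.sec (T a)) + (B.H (Fr.bl a)).div q := by
    intro a q hq
    have h1 := ord_sum_ge q Finset.univ (fun b => algebraMap ℂ K (T a b) * Fr.g b)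
      (- (B.H (Fr.bl a)).div q) (by
        intro b _ hb
        have hb1 : T a b ≠ 0 := by
          intro h
          apply hb
          rw [h, map_zero, zero_mul]
        have hb2 : algebraMap ℂ K (T a b) ≠ 0 := by simpa using hb1
        rw [q.ord_mul _ _ hb2 (Fr.ne b), ord_const q hb1, zero_add]
        have h2 := hD0 b q hq
        rw [hG a b hb1] at h2
        omega)
    rcases h1 with h1 | h1
    · exact absurd h1 (hne a)
    · have h3 : - (B.H (Fr.bl a)).div q ≤ q.ord (Fr.sec (T a)) := h1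
      omega
  have hex : ∀ a, ∃ p ∈ V.primes, p.ord (Fr.sec (T a)) + (B.H (Fr.bl a)).div p = 1 ∧
      (∀ l, B.deg p l = if Fr.bl a = l then 1 else 0) ∧
      ∀ q ∈ V.primes, q ≠ p → q.ord (Fr.sec (T a)) + (B.H (Fr.bl a)).div q = 0 :=
    fun a => exists_prime hFSP hCBD B (Fr.bl a) _ (hne a) (hD a)
  choose pr hpr hself hdg hother using hex
  have hinj : Function.Injective pr := by
    intro a b hab
    by_contra hne'
    have hbl : Fr.bl a = Fr.bl b := by
      have h1 := hdg a (Fr.bl a)
      have h2 := hdg b (Fr.bl a)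
      rw [← hab, h1, if_pos rfl] at h2
      by_contra hc
      rw [if_neg fun h => hc h.symm] at h2
      exact one_ne_zero h2
    have hord : ∀ q ∈ V.primes, q.ord (Fr.sec (T a) / Fr.sec (T b)) = 0 := by
      intro q hq
      rw [ord_div q (hne a) (hne b)]
      by_cases h : q = pr a
      · have h1 := hself a
        have h2 := hself b
        rw [← hab, ← hbl] at h2
        rw [h]
        omega
      · have h1 := hother a q hq h
        have h2 := hother b q hq (by rw [← hab]; exact h)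
        rw [← hbl] at h2
        omega
    obtain ⟨c, hc⟩ := const_of_unit hGAM B Fr _ (div_ne_zero (hne a) (hne b)) hord
    rw [div_eq_iff (hne b)] at hc
    have hsec : Fr.sec (T a + (-c) • T b) = 0 := by
      have h1 : Fr.sec (T a + (-c) • T b) = Fr.sec (T a) - algebraMap ℂ K c * Fr.sec (T b) := by
        unfold Frame.sec
        rw [Finset.mul_sum, ← Finset.sum_sub_distrib]
        apply Finset.sum_congr rfl
        intro i _
        rw [Pi.add_apply, Pi.smul_apply, smul_eq_mul, map_add, map_mul, map_neg]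
        ring
      rw [h1, hc, sub_self]
    have hmem : T a + (-c) • T b ∈ Blk Fr.bl (Fr.bl a) := by
      apply Submodule.add_mem _ (hblk a)
      apply Submodule.smul_mem
      rw [hbl]
      exact hblk b
    have hzero : T a + (-c) • T b = 0 := by
      by_contra h
      exact (hSEC K V r B n L Fr).1 (Fr.bl a) _ hmem h hsec
    apply hdet
    rw [← Matrix.det_updateRow_add_smul_self T hne' (-c)]
    apply Matrix.det_eq_zero_of_row_eq_zero a
    intro j
    rw [Matrix.updateRow_self, hzero]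
    rfl
  -- the top form
  have hold : ∀ q ∈ V.primes,
      ordOmega L q + ∑ a, (q.ord (Fr.g a) + (B.H (Fr.bl a)).div q) = 0 := by
    intro q hq
    by_cases h : ∃ b, q = Fr.pr b
    · obtain ⟨b, rfl⟩ := h
      rw [Finset.sum_eq_single b (fun a _ hab => Fr.div_other a _ hq fun h =>
        hab (Fr.pr_inj h).symm) (fun h => absurd (Finset.mem_univ b) h), Fr.div_self,
        Fr.omega_pr]
      norm_num
    · push Not at h
      rw [Finset.sum_eq_zero fun a _ => Fr.div_other a q hq (h a), Fr.omega_other q hq h, add_zero]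
  have hnew : ∀ q ∈ V.primes,
      ordOmega L'' q = - ∑ a, (q.ord (Fr.sec (T a)) + (B.H (Fr.bl a)).div q) := by
    intro q hq
    have h1 := hold q hq
    have h2 := hom q
    rw [Finset.sum_add_distrib] at h1 ⊢
    omega
  refine ⟨L'', ⟨Fr.bl, fun a => Fr.sec (T a), pr, hne, hpr, hinj, hself, hother, Fr.surj, ?_, ?_,
    ?_⟩, rfl, fun a => rfl, hom⟩
  · intro j
    exact ⟨e j, β (Fr.bl (e j)), (hch.base _).symm, hz j⟩
  · intro a
    rw [hnew _ (hpr a), Finset.sum_eq_single a (fun b _ hab => hother b _ (hpr a) fun h =>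
        hab (hinj h).symm) (fun h => absurd (Finset.mem_univ a) h), hself]
  · intro q hq h
    rw [hnew q hq, Finset.sum_eq_zero fun a _ => hother a q hq (h a), neg_zero]

end Pool.Agent.Helper53.GX
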